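import Mathlib
import Pool.Agent.TH876.NP.Def
import Pool.Agent.TH876.NP.Def2
import Pool.Agent.TH876.NP.Classes
import Pool.Agent.TH876.NP.Roots
import Pool.Agent.TH876.NP.Gap
import Pool.Agent.TH876.NP.Choose
import Pool.Agent.TH876.NP.Scale
import Pool.Agent.TH876.NP.Core
import Pool.Agent.TH876.NP.Three
import Pool.Agent.TH876.NP.Weak

/-!
# Elements of a number field with small conductors one of which belongs to a perfect power

`K` is a number field, `S` a finite set of primes. The conductors of `x ∈ K`, `x ≠ 0, 1`, are those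
of `x`, `1 / x` and `x - 1`. We count the `x` for which the sum of the three conductors is at most
`log X` and for which the zeros of one of `x`, `1 / x`, `x - 1` outside `S` have orders divisible by
`m`; the heights of these `x` may be much larger than every power of `X`.
-/

set_option autoImplicit false

namespace Pool.Agent.Results.MP_f5a5f7_nt.PerfectPowerMember

open NumberField IsDedekindDomain

/-- the conductor of `x` outside `S`: the sum of `log N(v)` over the primes `v` outside `S` with
`|x|_v < 1` -/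
noncomputable def cond {K : Type} [Field K] [NumberField K] (S : Set (HeightOneSpectrum (𝓞 K)))
    (x : K) : ℝ :=
  ∑ᶠ v ∈ {v : HeightOneSpectrum (𝓞 K) | v ∉ S ∧ v.valuation K x < 1},
    Real.log (Ideal.absNorm v.asIdeal : ℝ)

/-- the orders of the zeros of `z` at the primes outside `S` are divisible by `m` -/
def IsPow {K : Type} [Field K] [NumberField K] (S : Set (HeightOneSpectrum (𝓞 K))) (m : ℕ)
    (z : K) : Prop :=
  ∀ v : HeightOneSpectrum (𝓞 K), v ∉ S → v.valuation K z < 1 →
    ∃ a : ℕ, v.valuation K z = WithZero.exp (-((m * a : ℕ) : ℤ))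

/-- the `x ∈ K`, `x ≠ 0, 1`, of height at most `H` for which the sum of the conductors of `x`,
`1 / x` and `x - 1` is at most `log X`, only primes of norm at most `y` contribute to it, and the
zeros of one of `x`, `1 / x`, `x - 1` outside `S` have orders divisible by `m` -/
def Points {K : Type} [Field K] [NumberField K] (S : Set (HeightOneSpectrum (𝓞 K))) (m : ℕ)
    (X y H : ℝ) : Set K :=
  {x | x ≠ 0 ∧ x ≠ 1 ∧ (IsPow S m x ∨ IsPow S m x⁻¹ ∨ IsPow S m (x - 1)) ∧
    Real.exp (cond S x + cond S x⁻¹ + cond S (x - 1)) ≤ X ∧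
    (∀ v : HeightOneSpectrum (𝓞 K), v ∉ S → (v.valuation K x ≠ 1 ∨ v.valuation K (x - 1) ≠ 1) →
      (Ideal.absNorm v.asIdeal : ℝ) ≤ y) ∧
    Height.logHeight₁ x ≤ H}

/-- Let `K` be a number field, `S` a finite set of primes, `m ≥ 2` and `ε > 0`. For all
`X, y, H ≥ 1` at most `C y X ^ ((m + 1) / (2 m + 1) + ε) (1 + log H)` of the `x ∈ K`, `x ≠ 0, 1`, of
height at most `H` have three conductors whose sum is at most `log X`, contributions only from
primes of norm at most `y`, and one of `x`, `1 / x`, `x - 1` the zeros of which outside `S` have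
orders divisible by `m`. -/
theorem result (K : Type) [Field K] [NumberField K] (S : Set (HeightOneSpectrum (𝓞 K)))
    (hS : S.Finite) (m : ℕ) (ε : ℝ) (hm : 2 ≤ m) (hε : 0 < ε) :
    ∃ C : ℝ, ∀ X y H : ℝ, 1 ≤ X → 1 ≤ y → 1 ≤ H → (Points S m X y H).Finite ∧
      ((Points S m X y H).ncard : ℝ) ≤
        C * y * X ^ (((m : ℝ) + 1) / (2 * m + 1) + ε) * (1 + Real.log H) :=
  Pool.Agent.TH876.NP.weak K (Pool.Agent.TH876.NP.three K (Pool.Agent.TH876.NP.choose K)
    (Pool.Agent.TH876.NP.core K (Pool.Agent.TH876.NP.scale K (Pool.Agent.TH876.NP.classes K)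
      (Pool.Agent.TH876.NP.roots K) (Pool.Agent.TH876.NP.gap K)))) S hS m ε hm hε

end Pool.Agent.Results.MP_f5a5f7_nt.PerfectPowerMember
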