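import Mathlib
import Pool.Agent.TH876.GR.Scale
import Pool.Agent.TH876.GR.Small
import Pool.Agent.TH876.GR.Main
import Pool.Agent.TH876.SK.Adm
import Pool.Agent.TH876.SK.Fin

/-!
# Elements of a number field one of whose three conductors is small

`K` is a number field, `S` a finite set of primes. The conductors of `x ∈ K`, `x ≠ 0, 1`, are those
of `x`, `1 / x` and `x - 1`. We count the `x` for which the sum of the three conductors is at most
`log X` and the smallest of them at most `log A`; the heights of these `x` may be much larger than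
every power of `X`.
-/

set_option autoImplicit false

namespace Pool.Agent.Results.MP_f5a5f7_nt.SmallConductor

open NumberField IsDedekindDomain

variable {K : Type} [Field K] [NumberField K]

/-- the conductor of `x` outside `S`: the sum of `log N(v)` over the primes `v` outside `S` with
`|x|_v < 1` -/
noncomputable def cond (S : Set (HeightOneSpectrum (𝓞 K))) (x : K) : ℝ :=
  ∑ᶠ v ∈ {v : HeightOneSpectrum (𝓞 K) | v ∉ S ∧ v.valuation K x < 1},
    Real.log (Ideal.absNorm v.asIdeal : ℝ)

/-- the `x ∈ K`, `x ≠ 0, 1`, of height at most `H` for which the sum of the conductors of `x`,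
`1 / x` and `x - 1` is at most `log X` and the smallest of the three is at most `log A` -/
def Points (S : Set (HeightOneSpectrum (𝓞 K))) (X A H : ℝ) : Set K :=
  {x | x ≠ 0 ∧ x ≠ 1 ∧ Real.exp (cond S x + cond S x⁻¹ + cond S (x - 1)) ≤ X ∧
    Real.exp (min (cond S x) (min (cond S x⁻¹) (cond S (x - 1)))) ≤ A ∧
    Height.logHeight₁ x ≤ H}

/-- Let `K` be a number field, `S` a finite set of primes and `ε > 0`. For all `X, A, H ≥ 1` at most
`C H X ^ ε (A X) ^ (1 / 2)` of the `x ∈ K`, `x ≠ 0, 1`, of height at most `H` have three conductors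
whose sum is at most `log X` and whose minimum is at most `log A`. -/
theorem result (K : Type) [Field K] [NumberField K] (S : Set (HeightOneSpectrum (𝓞 K)))
    (hS : S.Finite) (ε : ℝ) (hε : 0 < ε) :
    ∃ C : ℝ, ∀ X A H : ℝ, 1 ≤ X → 1 ≤ A → 1 ≤ H → (Points S X A H).Finite ∧
      ((Points S X A H).ncard : ℝ) ≤ C * H * X ^ ε * (A * X) ^ ((1 : ℝ) / 2) :=
  Pool.Agent.TH876.SK.final K
    (fun e c he he1 hc => Pool.Agent.TH876.GR.mainBound K e c he he1 hc
      (Pool.Agent.TH876.GR.scaleBound K e c he he1 hc) (Pool.Agent.TH876.GR.smallBound K e c he hc))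
    (Pool.Agent.TH876.SK.admSmall K) S hS ε hε

end Pool.Agent.Results.MP_f5a5f7_nt.SmallConductor
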