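import Mathlib
import Pool.Agent.TH402.AK.Weak

/-!
# The number of violations of the weak abc inequality over a number field
-/

set_option autoImplicit false

namespace Pool.Agent.Results.MP_f5a5f7_nt.ViolationsOfWeakAbc

open NumberField IsDedekindDomain

variable {K : Type} [Field K] [NumberField K]

/-- the absolute logarithmic Weil height `h(x)`, as in the problem -/
noncomputable def height (x : K) : ℝ :=
  (1 / (Module.finrank ℚ K : ℝ)) *
    ((∑ w : InfinitePlace K, (w.mult : ℝ) * Real.log (max 1 (w x))) +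
      ∑ᶠ v : HeightOneSpectrum (𝓞 K), Real.log (max 1 (FinitePlace.mk v x)))

/-- the conductor `cond(x)`, as in the problem -/
noncomputable def cond (x : K) : ℝ :=
  (1 / (Module.finrank ℚ K : ℝ)) *
    (∑ᶠ v : HeightOneSpectrum (𝓞 K),
      (if FinitePlace.mk v x < 1 then Real.log (Ideal.absNorm v.asIdeal : ℝ) else 0))

/-- the elements `x ≠ 0, 1` of `K` of height at most `B` for which the inequality of Q1 fails with
the constant `κ` -/
def Violations (K : Type) [Field K] [NumberField K] (κ B : ℝ) : Set K :=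
  {x | x ≠ 0 ∧ x ≠ 1 ∧ height x ≤ B ∧
    ¬ height x ≤ κ * (cond x + cond x⁻¹ + cond (x - 1) + 1)}

theorem fin_of_bound {α : Type} (P : Set α) (B : ℝ)
    (h : ∀ G : Finset α, (G : Set α) ⊆ P → (G.card : ℝ) ≤ B) : P.Finite ∧ (P.ncard : ℝ) ≤ B := by
  have hfin : P.Finite := by
    by_contra hinf
    obtain ⟨G, hGV, hGc⟩ := Set.Infinite.exists_subset_card_eq hinf (⌊B⌋₊ + 1)
    have h1 := h G hGV
    have h2 := Nat.lt_floor_add_one B
    rw [hGc] at h1
    push_cast at h1
    linarith
  refine ⟨hfin, ?_⟩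
  rw [Set.ncard_eq_toFinset_card _ hfin]
  exact h hfin.toFinset (by rw [Set.Finite.coe_toFinset])

/-- For every number field `K` of degree `d` and `ε > 0` there is `C` such that for all `κ > 0` and
`B ≥ 1` at most `C B exp((2 / 3 + ε) d B / κ)` elements `x ≠ 0, 1` of `K` of height at most `B`
violate `h(x) ≤ κ (cond(x) + cond(x⁻¹) + cond(x - 1) + 1)`. -/
theorem result (K : Type) [Field K] [NumberField K] (ε : ℝ) (hε : 0 < ε) :
    ∃ C : ℝ, ∀ κ B : ℝ, 0 < κ → 1 ≤ B → (Violations K κ B).Finite ∧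
      ((Violations K κ B).ncard : ℝ) ≤
        C * B * Real.exp ((2 / 3 + ε) * (Module.finrank ℚ K : ℝ) * (B / κ)) := by
  obtain ⟨C, hC, h⟩ := Pool.Agent.TH402.AK.Weak.count K ε hε
  refine ⟨C, fun κ B hκ hB => fin_of_bound _ _ fun G hG => h κ B hκ hB G fun x hx => ?_⟩
  obtain ⟨h1, h2, h3, h4⟩ := hG hx
  exact ⟨h1, h2, h3, not_le.1 h4⟩

end Pool.Agent.Results.MP_f5a5f7_nt.ViolationsOfWeakAbc
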